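import Pool.Agent.H311.Dom.Count2
import Pool.Agent.Y725.DP.Poly

/-!
# Domination polynomials whose roots lie near the negative half-line

If every complex root `z` of the domination polynomial of a finite graph without isolated vertices
satisfies `Re z ≤ 0` and `|Im z| ≤ (1 - Re z) / 10`, then the graph is star-like.
-/

set_option autoImplicit false

open Polynomial

namespace Pool.Agent.Results.MP_ce8257_co.NearlyRealRoots

variable {V : Type*}

/-- A set `S` of vertices is dominating if each vertex of `G` belongs to `S` or is adjacent to a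
vertex of `S`. -/
def IsDominating (G : SimpleGraph V) (S : Finset V) : Prop := ∀ v, v ∈ S ∨ ∃ u ∈ S, G.Adj v u

/-- `d_k(G)`: the number of dominating sets of size `k`. -/
noncomputable def domCount (G : SimpleGraph V) (k : ℕ) : ℕ :=
  {S : Finset V | IsDominating G S ∧ S.card = k}.ncard

/-- The domination polynomial `D(G, x) = ∑_{k=0}^{n} d_k(G) x^k`. -/
noncomputable def domPoly [Fintype V] (G : SimpleGraph V) : ℤ[X] :=
  ∑ k ∈ Finset.range (Fintype.card V + 1), C (domCount G k : ℤ) * X ^ k

/-- A leaf is a vertex of degree one. -/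
def IsLeaf (G : SimpleGraph V) (v : V) : Prop := (G.neighborSet v).ncard = 1

/-- A `k`-stem is a vertex adjacent to exactly `k` leaves. -/
def IsStem (G : SimpleGraph V) (k : ℕ) (v : V) : Prop := {w | G.Adj v w ∧ IsLeaf G w}.ncard = k

/-- A graph is star-like if every vertex is a leaf or a `1`-stem or a `2`-stem. -/
def IsStarLike (G : SimpleGraph V) : Prop := ∀ v, IsLeaf G v ∨ IsStem G 1 v ∨ IsStem G 2 v

open scoped Classical

open Pool.Agent.H311.Dom Pool.Agent.Y725.DP

theorem leaf_iff (G : SimpleGraph V) (v : V) : IsLeaf G v ↔ Leaf G v := by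
  unfold IsLeaf Leaf
  rw [Set.ncard_eq_one]
  constructor
  · rintro ⟨u, hu⟩
    refine ⟨u, fun w => ?_⟩
    have : w ∈ G.neighborSet v ↔ w ∈ ({u} : Set V) := by rw [hu]
    simpa using this
  · rintro ⟨u, hu⟩
    exact ⟨u, by ext w; simp [hu]⟩

variable [Fintype V]

theorem stem_iff (G : SimpleGraph V) (k : ℕ) (v : V) : IsStem G k v ↔ (Lf G v).card = k := by
  unfold IsStem
  have : {w | G.Adj v w ∧ IsLeaf G w} = ((Lf G v : Finset V) : Set V) := by
    ext w
    simp [Lf, leaf_iff]
  rw [this, Set.ncard_coe_finset]

theorem domCount_eq (G : SimpleGraph V) (k : ℕ) :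
    domCount G k = ((DS G).filter (fun S => S.card = k)).card := by
  unfold domCount
  have : {S : Finset V | IsDominating G S ∧ S.card = k}
      = (((DS G).filter (fun S => S.card = k) : Finset (Finset V)) : Set (Finset V)) := by
    ext S
    simp only [Set.mem_ofPred_eq, Finset.mem_coe, Finset.mem_filter, DS, Finset.mem_univ, true_and]
    rfl
  rw [this, Set.ncard_coe_finset]

theorem domPoly_eq (G : SimpleGraph V) : domPoly G = ∑ S ∈ DS G, X ^ S.card := by
  unfold domPoly
  rw [← Finset.sum_fiberwise_of_maps_to (s := DS G) (t := Finset.range (Fintype.card V + 1))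
    (g := fun S => S.card)]
  · apply Finset.sum_congr rfl
    intro k _
    rw [Finset.sum_congr rfl (g := fun _ => (X ^ k : ℤ[X]))]
    · rw [Finset.sum_const, domCount_eq]
      simp
    · intro S hS
      rw [(Finset.mem_filter.mp hS).2]
  · intro S _
    rw [Finset.mem_range]
    have := Finset.card_le_univ S
    omega

theorem coeff_domPoly (G : SimpleGraph V) (k : ℕ) :
    (domPoly G).coeff k = ((DS G).filter (fun S => S.card = k)).card := by
  rw [domPoly_eq, Polynomial.finsetSum_coeff]
  simp only [Polynomial.coeff_X_pow]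
  rw [Finset.sum_ite, Finset.sum_const_zero, add_zero, Finset.sum_const]
  simp only [nsmul_eq_mul, mul_one]
  congr 2
  apply Finset.filter_congr
  intro S _
  exact eq_comm

theorem univ_mem (G : SimpleGraph V) : (Finset.univ : Finset V) ∈ DS G := by
  simp only [DS, Finset.mem_filter, Finset.mem_univ, true_and]
  exact fun v => Or.inl (Finset.mem_univ v)

theorem natDegree_le (G : SimpleGraph V) : (domPoly G).natDegree ≤ Fintype.card V := by
  rw [domPoly_eq]
  apply Polynomial.natDegree_sum_le_of_forall_le
  intro S _
  rw [Polynomial.natDegree_X_pow]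
  exact Finset.card_le_univ S

theorem coeff_top (G : SimpleGraph V) : (domPoly G).coeff (Fintype.card V) = 1 := by
  rw [coeff_domPoly]
  have : (DS G).filter (fun S => S.card = Fintype.card V) = {Finset.univ} := by
    ext S
    simp only [Finset.mem_filter, Finset.mem_singleton]
    constructor
    · exact fun h => (Finset.card_eq_iff_eq_univ S).mp h.2
    · rintro rfl
      exact ⟨univ_mem G, Finset.card_univ⟩
  rw [this]; simp

theorem monic (G : SimpleGraph V) : (domPoly G).Monic :=
  Polynomial.monic_of_natDegree_le_of_coeff_eq_one _ (natDegree_le G) (coeff_top G)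

theorem natDegree_eq (G : SimpleGraph V) : (domPoly G).natDegree = Fintype.card V :=
  le_antisymm (natDegree_le G)
    (Polynomial.le_natDegree_of_ne_zero (by rw [coeff_top]; exact one_ne_zero))

theorem coeff_pred (G : SimpleGraph V) (hiso : ∀ v, ∃ u, G.Adj v u) (hV : 0 < Fintype.card V) :
    (domPoly G).coeff (Fintype.card V - 1) = Fintype.card V := by
  rw [coeff_domPoly]
  have : (DS G).filter (fun S => S.card = Fintype.card V - 1)
      = Finset.univ.image (fun v => Finset.univ.erase v) := by
    ext S
    simp only [Finset.mem_filter, Finset.mem_image, Finset.mem_univ, true_and, DS]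
    constructor
    · rintro ⟨_, h⟩
      have h1 : Sᶜ.card = 1 := by rw [Finset.card_compl, h]; omega
      obtain ⟨v, hv⟩ := Finset.card_eq_one.mp h1
      refine ⟨v, ?_⟩
      rw [← compl_compl S, hv]
      ext x; simp
    · rintro ⟨v, rfl⟩
      refine ⟨?_, by rw [Finset.card_erase_of_mem (Finset.mem_univ v), Finset.card_univ]⟩
      intro x
      by_cases hx : x = v
      · right
        obtain ⟨u, hu⟩ := hiso x
        exact ⟨u, by simp [← hx, hu.ne'], hu⟩
      · left; simp [hx]
  rw [this, Finset.card_image_of_injective]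
  · simp
  · intro v w h
    simp only at h
    by_contra hne
    have h1 : v ∈ Finset.univ.erase w := by simp [hne]
    rw [← h] at h1
    simp at h1

theorem eval_deriv (R : Multiset ℂ) (hR : ∀ r ∈ R, 0 ≤ r.re) :
    (R.map (fun r => (X + C r : ℂ[X]))).prod.derivative.eval 1
      = (R.map (fun r => (X + C r : ℂ[X]))).prod.eval 1 * (R.map (fun r => 1 / (1 + r))).sum := by
  induction R using Multiset.induction with
  | empty => simp
  | cons a s ih =>
    have ha : 0 ≤ a.re := hR a (Multiset.mem_cons_self a s)
    have hs := ih (fun r hr => hR r (Multiset.mem_cons_of_mem hr))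
    rw [Multiset.map_cons, Multiset.prod_cons, Polynomial.derivative_mul, Multiset.map_cons,
      Multiset.sum_cons]
    simp only [Polynomial.eval_add, Polynomial.eval_mul, Polynomial.derivative_add,
      Polynomial.derivative_X, Polynomial.derivative_C, Polynomial.eval_X, Polynomial.eval_C,
      Polynomial.eval_one, add_zero]
    rw [hs]
    have : (1 + a : ℂ) ≠ 0 := one_add_ne ha
    field_simp

theorem sum_Lc_eq (R : Multiset ℂ) (hR : ∀ r ∈ R, 0 ≤ r.re) :
    (R.map Lc).sum =
      (R.sum / 3 - Multiset.card R + (R.map (fun r => 1 / (1 + r))).sum).re := by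
  induction R using Multiset.induction with
  | empty => simp
  | cons a s ih =>
    have ha : 0 ≤ a.re := hR a (Multiset.mem_cons_self a s)
    have hs := ih (fun r hr => hR r (Multiset.mem_cons_of_mem hr))
    rw [Multiset.map_cons, Multiset.sum_cons, hs, Multiset.sum_cons, Multiset.card_cons,
      Multiset.map_cons, Multiset.sum_cons]
    have : (1 + a : ℂ) ≠ 0 := one_add_ne ha
    unfold Lc
    rw [← Complex.add_re]
    congr 1
    push_cast
    field_simp
    ring

/-- **A uniform form of Oboudi's conjecture.**  If `G` is a finite graph without isolated vertices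
and every complex root `z` of its domination polynomial satisfies `Re z ≤ 0` and
`|Im z| ≤ (1 - Re z) / 10`, then `G` is star-like.  (Real roots are nonpositive, so real-rooted
domination polynomials satisfy the hypothesis.) -/
theorem result (G : SimpleGraph V) (hiso : ∀ v, ∃ u, G.Adj v u)
    (hroots : ∀ z : ℂ, aeval z (domPoly G) = 0 → z.re ≤ 0 ∧ |z.im| ≤ (1 - z.re) / 10) :
    IsStarLike G := by
  intro x
  by_contra hx
  rw [leaf_iff, stem_iff, stem_iff] at hx
  push Not at hx
  have hlt := average_lt hiso hx.1 hx.2.1 hx.2.2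
  have hV : 0 < Fintype.card V := Fintype.card_pos_iff.mpr ⟨x⟩
  set p := domPoly G with hp
  set P := p.map (Int.castRingHom ℂ) with hP
  have hPm : P.Monic := (monic G).map _
  have hsplit : P.Splits := IsAlgClosed.splits _
  set R : Multiset ℂ := P.roots.map (fun z => -z) with hR
  have hPR : P = (R.map (fun r => (X + C r : ℂ[X]))).prod := by
    rw [hR, Multiset.map_map]
    conv_lhs => rw [hsplit.eq_prod_roots_of_monic hPm]
    congr 1
    apply Multiset.map_congr rfl
    intro z _
    simp [sub_eq_add_neg]
  have hcard : Multiset.card R = Fintype.card V := by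
    rw [hR, Multiset.card_map, ← hsplit.natDegree_eq_card_roots, hP,
      (monic G).natDegree_map, natDegree_eq]
  have hevalP : ∀ y : ℂ, P.eval y = ∑ S ∈ DS G, y ^ S.card := by
    intro y
    rw [hP, hp, domPoly_eq, Polynomial.map_sum, Polynomial.eval_finsetSum]
    apply Finset.sum_congr rfl
    intro S _
    simp
  have hRnn : ∀ r ∈ R, 0 ≤ r.re ∧ |r.im| ≤ (1 + r.re) / 10 := by
    intro r hr
    rw [hR, Multiset.mem_map] at hr
    obtain ⟨z, hz, rfl⟩ := hr
    have h1 := Polynomial.isRoot_of_mem_roots hz
    have h2 : aeval z p = 0 := by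
      have e : Int.castRingHom ℂ = algebraMap ℤ ℂ := RingHom.ext_int _ _
      rw [Polynomial.IsRoot.def, hP, Polynomial.eval_map, e] at h1
      rw [Polynomial.aeval_def]
      exact h1
    have h3 := hroots z h2
    refine ⟨?_, ?_⟩
    · simpa using h3.1
    · simpa [sub_eq_add_neg] using h3.2
  have hRre : ∀ r ∈ R, 0 ≤ r.re := fun r hr => (hRnn r hr).1
  have h1R : (1 : ℂ) ∉ R := by
    intro h
    have h1 : P.eval (-1) = 0 := by rw [hPR]; exact root_of_memc h
    have h2 : p.eval (-1) = 0 := by
      have : P.eval (-1) = ((p.eval (-1) : ℤ) : ℂ) := by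
        rw [hP]
        have := Polynomial.eval_intCast_map (Int.castRingHom ℂ) p (-1)
        simpa using this
      rw [this] at h1
      exact_mod_cast h1
    have h3 : ((p.eval (-1) : ℤ) : ZMod 2) = 1 := by
      rw [hp, domPoly_eq, Polynomial.eval_finsetSum]
      push_cast
      simp only [Polynomial.eval_pow, Polynomial.eval_X]
      push_cast
      have h4 : (-1 : ZMod 2) = 1 := by decide
      simp only [h4, one_pow]
      rw [Finset.sum_const, nsmul_eq_mul, mul_one]
      have := odd_DS (G := G)
      exact (ZMod.natCast_eq_one_iff_odd).mpr this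
    rw [h2] at h3
    simp at h3
  have hL := sum_Lc_nonneg _ p R rfl hPR hRnn h1R
  rw [sum_Lc_eq R hRre, hcard] at hL
  have hsum : R.sum = (Fintype.card V : ℂ) := by
    have h1 : P.nextCoeff = (R.map (fun r => (X + C r : ℂ[X]).nextCoeff)).sum := by
      conv_lhs => rw [hPR]
      rw [Polynomial.Monic.nextCoeff_multiset_prod]
      intro r _
      exact Polynomial.monic_X_add_C r
    simp only [Polynomial.nextCoeff_X_add_C, Multiset.map_id'] at h1
    rw [← h1]
    have h2 : P.natDegree = Fintype.card V := by
      rw [hP, (monic G).natDegree_map, natDegree_eq]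
    rw [Polynomial.nextCoeff_of_natDegree_pos (by rw [h2]; exact hV), h2, hP, Polynomial.coeff_map,
      coeff_pred G hiso hV]
    simp
  have hD1 : P.eval 1 = ((DS G).card : ℂ) := by
    rw [hevalP]; simp
  have hD2 : P.derivative.eval 1 = ((∑ S ∈ DS G, S.card : ℕ) : ℂ) := by
    rw [hP, hp, domPoly_eq, Polynomial.map_sum, Polynomial.derivative_sum,
      Polynomial.eval_finsetSum]
    push_cast
    apply Finset.sum_congr rfl
    intro S _
    rw [Polynomial.map_pow, Polynomial.map_X, Polynomial.derivative_X_pow]
    simp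
  have hder := eval_deriv R hRre
  rw [← hPR, hD1, hD2] at hder
  have hpos : 0 < (DS G).card := Finset.card_pos.mpr ⟨_, univ_mem G⟩
  have hposR : (0 : ℝ) < (DS G).card := by exact_mod_cast hpos
  have hposC : ((DS G).card : ℂ) ≠ 0 := by exact_mod_cast hpos.ne'
  set T : ℝ := ((∑ S ∈ DS G, S.card : ℕ) : ℝ) / ((DS G).card : ℝ) with hT
  have hS : (R.map (fun r => 1 / (1 + r))).sum = (T : ℂ) := by
    rw [hT]
    push_cast
    rw [eq_div_iff hposC, mul_comm]
    push_cast at hder
    exact hder.symm
  have hltR : (3 : ℝ) * ((∑ S ∈ DS G, S.card : ℕ) : ℝ) < 2 * Fintype.card V * (DS G).card := by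
    exact_mod_cast hlt
  rw [hS, hsum] at hL
  have e1 : ((Fintype.card V : ℂ) / 3 - (Fintype.card V : ℂ) + (T : ℂ)) =
      (((Fintype.card V : ℝ) / 3 - (Fintype.card V : ℝ) + T : ℝ) : ℂ) := by
    push_cast
    ring
  rw [e1, Complex.ofReal_re] at hL
  have h5 : T < 2 * Fintype.card V / 3 := by
    rw [hT, div_lt_div_iff₀ hposR (by norm_num)]
    linarith
  linarith

end Pool.Agent.Results.MP_ce8257_co.NearlyRealRoots
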